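import Pool.Agent.Helper93.WS.MainC

/-!
# A criterion for the descent of modularity mod p along p-extensions

Let `F' / F` be a Galois extension of number fields whose group `P` is a `p`-group, `D` a
quaternion division algebra over `F'` with a semilinear action of `P`, `O` a `P`-stable order,
`H` a `P`-stable level group mod `n` such that the stabilisers of the lattice pairs are central,
`k` an algebraically closed field of characteristic `p` and `ρ : Gal(L/F) → GL₂(k)`.
Then (for `N` divisible by a suitable `N₀` and by `n`, `O` split and `ρ` unramified outside `N`)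
the generalised eigenspace `E` of `ρ` in the forms mod `p` on `D` contains a `P`-invariant form
which is not a sum of traces from proper subgroups of `P` if and only if `ρ` occurs, at all
primes outside `N`, in the forms mod `p` on one of the `F`-forms `B` of `D` attached to the
pairs `y` whose class is fixed by `P`, with the order and the level attached to `y`.
The orders attached to the pairs are split outside `N`.
-/

open scoped Pointwise NumberField TensorProduct
open Pool.Agent.Helper93.WS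

universe u

namespace Pool.Agent.Results.MP_cab3fc_nt.DescentCriterion

theorem result {p : ℕ} [Fact p.Prime] {k : Type u} [Field k] [CharP k p] [IsAlgClosed k]
    {F F' L D : Type u} [Field F] [NumberField F] [Field F'] [NumberField F']
    [Field L] [NumberField L] [Algebra F F'] [Algebra F L] [Algebra F' L] [IsScalarTower F F' L]
    [IsGalois F F'] [IsGalois F L] (hP : IsPGroup p (F' ≃ₐ[F] F'))
    (ρ : (L ≃ₐ[F] L) →* Matrix.GeneralLinearGroup (Fin 2) k)
    [DivisionRing D] [Algebra F' D] [Algebra.IsCentral F' D] (hD : Module.finrank F' D = 4)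
    [MulSemiringAction (F' ≃ₐ[F] F') D]
    (hact : ∀ (σ : F' ≃ₐ[F] F') (a : F'), σ • algebraMap F' D a = algebraMap F' D (σ a))
    (O : Subring D) (hO : IsOrder F' O) (hOP : ∀ (σ : F' ≃ₐ[F] F'), ∀ a ∈ O, σ • a ∈ O)
    (n : ℕ) (hn : n ≠ 0) (H : Set D) (hH : IsLevel O n H)
    (hHP : ∀ (σ : F' ≃ₐ[F] F'), ∀ h ∈ H, σ • h ∈ H)
    (hsmall : ∀ y, IsPair F' O n H y → ∀ d : Dˣ, d • y = y →
      ∃ a : F', (d : D) = algebraMap F' D a) :
    (∀ (B : Type u) [DivisionRing B] [Algebra F B] (y : AddSubgroup D × Set D)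
      (γ : (F' ≃ₐ[F] F') → Dˣ) (ι : B →+* D), IsTwistedForm O n H y γ ι →
        Nonempty ((F' ⊗[F] B) ≃ₐ[F'] D) ∧ IsOrder F (OB ι y.1) ∧
        IsLevel (OB ι y.1) n (HB ι y) ∧
        (NumberField.IsTotallyReal F' → TotallyDefinite F' D → TotallyDefinite F B)) ∧
    ∃ N₀ : ℕ, N₀ ≠ 0 ∧ ∀ N : ℕ, N ≠ 0 → N₀ ∣ N → n ∣ N →
      (∀ w : Ideal (𝓞 F'), w.IsMaximal → (N : 𝓞 F') ∉ w → Split F' O w) →
      (∀ Q : Ideal (𝓞 L), Q.IsMaximal → (N : 𝓞 L) ∉ Q → ∀ τ : L ≃ₐ[F] L,
        (∀ x : 𝓞 L, τ • x - x ∈ Q) → ρ τ = 1) →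
      (∀ (B : Type u) [DivisionRing B] [Algebra F B] (y : AddSubgroup D × Set D)
        (γ : (F' ≃ₐ[F] F') → Dˣ) (ι : B →+* D), IsTwistedForm O n H y γ ι →
          ∀ v : Ideal (𝓞 F), v.IsMaximal → (N : 𝓞 F) ∉ v → Split F (OB ι y.1) v) ∧
      ((∃ f ∈ eigenSpace F F' ρ O n H N, (∀ (σ : F' ≃ₐ[F] F') y, f (σ • y) = f y) ∧
          f ∉ properTraces (F' ≃ₐ[F] F') (eigenSpace F F' ρ O n H N)) ↔
        ∃ (B : Type u) (_ : DivisionRing B) (_ : Algebra F B) (y : AddSubgroup D × Set D)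
          (γ : (F' ≃ₐ[F] F') → Dˣ) (ι : B →+* D) (g : AddSubgroup B × Set B → k),
          IsTwistedForm O n H y γ ι ∧ IsForm F (OB ι y.1) n (HB ι y) g ∧ g ≠ 0 ∧
          ∀ v : Ideal (𝓞 F), v.IsMaximal → (N : 𝓞 F) ∉ v →
            ∀ (φ : L ≃ₐ[F] L) (Q : Ideal (𝓞 L)), IsFrob F φ Q v →
              hecke F (OB ι y.1) n (HB ι y) v g =
                Matrix.trace (ρ φ : Matrix (Fin 2) (Fin 2) k) • g) ∧
      (¬ p ∣ Module.finrank k (eigenSpace F F' ρ O n H N) →
        ∃ f ∈ eigenSpace F F' ρ O n H N, (∀ (σ : F' ≃ₐ[F] F') y, f (σ • y) = f y) ∧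
          f ∉ properTraces (F' ≃ₐ[F] F') (eigenSpace F F' ρ O n H N)) :=
  criterion_main hP ρ hD hact O hO hOP n hn H hH hHP hsmall

end Pool.Agent.Results.MP_cab3fc_nt.DescentCriterion
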