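import Pool.Agent.Helper2.LR.Main

/-!
# The weak Serre conjecture for `p = 2` and locally reducible representations

`F` is a totally real number field, `L / F` a finite Galois extension, `k` an algebraically closed
field of characteristic two, `ρ` any representation of `Gal(L/F)` in `GL₂(k)` and `m` a positive
integer. There are a totally real extension `F'` of `F`, whose degree is a power of two which
divides the order of the image of `ρ`, and a finite Galois extension `L' / F'` containing `L`, such
that the restriction `ρ'` of `ρ` to `Gal(L'/F')` has the following properties.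

* For every maximal ideal `Q` of `𝓞 L'` the image under `ρ'` of the decomposition group of `Q`
  fixes a line. If `2` is not in `Q`, and if `m` is in `Q` or `ρ'` is ramified at `Q`, then this
  image has odd order. If `2` is in `Q`, then it has no subgroup of index two.
* If the image of `ρ` is not solvable, then the image of `ρ'` is not solvable.
* If `ρ'` is modular over `F'` of weight `κ`, then `ρ` is modular over `F` of weight
  `κ [F' : F]`.
-/

open scoped NumberField Pointwise
open Pool.Agent.Helper2.LR
open Pool.Agent.Helper93.DR (Modular)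

universe u w

namespace Pool.Agent.Results.MP_cab3fc_nt.LocalReducibility

theorem result {k : Type w} [Field k] [CharP k 2] [IsAlgClosed k] {F L : Type u} [Field F]
    [NumberField F] [NumberField.IsTotallyReal F] [Field L] [NumberField L] [Algebra F L]
    [IsGalois F L] {m : ℕ} (hm : m ≠ 0)
    (ρ : (L ≃ₐ[F] L) →* Matrix.GeneralLinearGroup (Fin 2) k) :
    ∃ (F' L' : Type u) (_ : Field F') (_ : NumberField F') (_ : Field L') (_ : NumberField L')
      (_ : Algebra F F') (_ : Algebra F L') (_ : Algebra F' L') (_ : Algebra L L')
      (_ : IsScalarTower F F' L') (_ : IsScalarTower F L L'),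
      NumberField.IsTotallyReal F' ∧ IsGalois F' L' ∧
      (∃ r, Module.finrank F F' = 2 ^ r ∧ 2 ^ r ∣ Nat.card ρ.range) ∧
      (∀ Q : Ideal (𝓞 L'), Q.IsMaximal →
        FixesLine (decIm (bc (F' := F') (L' := L') ρ) Q) ∧
        ((2 : 𝓞 L') ∉ Q → (m : 𝓞 L') ∈ Q ∨ Ramified (bc (F' := F') (L' := L') ρ) Q →
          Odd (Nat.card (decIm (bc (F' := F') (L' := L') ρ) Q))) ∧
        ((2 : 𝓞 L') ∈ Q → ¬ HasIdxTwo (decIm (bc (F' := F') (L' := L') ρ) Q))) ∧
      (¬ Group.IsSolvable ρ.range → ¬ Group.IsSolvable (bc (F' := F') (L' := L') ρ).range) ∧
      ∀ κ, Modular F' κ (bc (F' := F') (L' := L') ρ) →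
        Modular F (κ * Module.finrank F F') ρ :=
  main hm ρ

end Pool.Agent.Results.MP_cab3fc_nt.LocalReducibility
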