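import Pool.Agent.Helper93.DR.Main

/-!
# Descent of modularity mod `p` in Galois extensions

`F' / F` is a finite Galois extension of number fields, `F'` totally real, `L / F` is a finite
Galois extension containing `F'`, and `k` is an algebraically closed field of characteristic `p`.

* If `Gal(F'/F)` is a `p`-group: Hilbert cusp forms over `F'` (of parallel weight `κ`, with
  algebraic integer coefficients) whose coefficients are Galois invariant mod `p` descend mod `p`
  to `F`: there is a Hilbert cusp form over `F` of weight `κ [F' : F]` whose coefficient at the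
  ideal `𝔫` is congruent to the coefficient of the form over `F'` at the extended ideal, for all
  `𝔫 ≠ 0`.
* Let `ρ` be a representation of `Gal(L/F)` in `GL₂(k)` whose restriction to `Gal(L/F')` is
  attached to the reduction of a Hilbert cusp form over `F'` of weight `κ`. If `Gal(F'/F)` is a
  `p`-group, then `ρ` is attached to the reduction of a Hilbert cusp form over `F` of weight
  `κ [F' : F]`. In general, let `P` be a Sylow `p`-subgroup of `Gal(F'/F)` and `K` its fixed field:
  then `[K : F]` is prime to `p` and the restriction of `ρ` to `Gal(L/K)` is attached to the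
  reduction of a Hilbert cusp form over `K` of weight `κ [F' : K]`.
* If `Gal(F'/F)` is a `p`-group and `ρ'` is an irreducible representation of `Gal(L/F')` in
  `GL₂(k)` which is isomorphic to its conjugates by `Gal(L/F)`, then `ρ'` has exactly one
  extension to `Gal(L/F)`.
-/

open scoped NumberField Pointwise
open Pool.Agent.Helper93.DR

namespace Pool.Agent.Results.MP_cab3fc_nt.ModularDescent

theorem result {p : ℕ} [Fact p.Prime] {k : Type*} [Field k] [CharP k p] [IsAlgClosed k]
    {F F' L : Type*} [Field F] [NumberField F] [Field F'] [NumberField F'] [Field L]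
    [NumberField L] [Algebra F F'] [Algebra F L] [Algebra F' L] [IsScalarTower F F' L]
    [NumberField.IsTotallyReal F'] [IsGalois F F'] [IsGalois F L] :
    (IsPGroup p (F' ≃ₐ[F] F') →
      ∃ m₀ : ℕ, m₀ ≠ 0 ∧ ∀ (R : Type*) [CommRing R] [CharP R p] (κ N : ℕ)
      (C' : Ideal (𝓞 F') → integralClosure ℤ ℂ) (φ : integralClosure ℤ ℂ →+* R), N ≠ 0 →
      IsForm F' κ N (fun 𝔪 => (C' 𝔪 : ℂ)) →
      (∀ (σ : F' ≃ₐ[F] F') (𝔪 : Ideal (𝓞 F')), 𝔪 ≠ ⊥ → φ (C' (σ • 𝔪)) = φ (C' 𝔪)) →
        ∃ C : Ideal (𝓞 F) → integralClosure ℤ ℂ,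
          IsForm F (κ * Module.finrank F F') (N * m₀ * Module.finrank F F')
            (fun 𝔫 => (C 𝔫 : ℂ)) ∧
          ∀ 𝔫 : Ideal (𝓞 F), 𝔫 ≠ ⊥ →
            φ (C 𝔫) = φ (C' (𝔫.map (algebraMap (𝓞 F) (𝓞 F'))))) ∧
    (∀ (ρ : (L ≃ₐ[F] L) →* Matrix.GeneralLinearGroup (Fin 2) k) (κ : ℕ),
      Modular F' κ (res (F' := F') ρ) →
      (IsPGroup p (F' ≃ₐ[F] F') → Modular F (κ * Module.finrank F F') ρ) ∧
      ∀ P : Sylow p (F' ≃ₐ[F] F'), ∀ K : IntermediateField F F',
        K = IntermediateField.fixedField (P : Subgroup (F' ≃ₐ[F] F')) →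
        ¬ p ∣ Module.finrank F K ∧
        Modular K (κ * Module.finrank K F') (res (F' := K) ρ)) ∧
    (IsPGroup p (F' ≃ₐ[F] F') →
      ∀ ρ' : (L ≃ₐ[F'] L) →* Matrix.GeneralLinearGroup (Fin 2) k, Irr ρ' → ConjInv F ρ' →
        ∃! ρ : (L ≃ₐ[F] L) →* Matrix.GeneralLinearGroup (Fin 2) k, res (F' := F') ρ = ρ') := by
  refine ⟨fun hP => ?_, fun ρ κ h => ⟨fun hP => descent_modular hP ρ h, ?_⟩,
    fun hP ρ' hirr hinv => extend_invariant hP ρ' hirr hinv⟩
  · obtain ⟨m₀, hm₀, h⟩ := descent_forms F F'
    exact ⟨m₀, hm₀, fun R _ _ κ N C' φ hN hC hinv => h p hP R κ N C' φ hN hC hinv⟩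
  · rintro P K hK
    have hfix : K.fixingSubgroup = (P : Subgroup (F' ≃ₐ[F] F')) := by
      rw [hK]
      exact IntermediateField.fixingSubgroup_fixedField _
    have hGK : IsGalois K F' := IsGalois.tower_top_of_isGalois F K F'
    have hGL : IsGalois K L := IsGalois.tower_top_of_isGalois F K L
    constructor
    · have h1 : Module.finrank F K = (P : Subgroup (F' ≃ₐ[F] F')).index := by
        rw [← hfix]
        exact IntermediateField.finrank_eq_fixingSubgroup_index (F := F) (E' := F') K
      rw [h1]
      exact P.not_dvd_index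
    · have hPK : IsPGroup p (F' ≃ₐ[K] F') := by
        refine IsPGroup.of_injective (H := F' ≃ₐ[K] F') P.isPGroup'
          ((MulEquiv.subgroupCongr hfix).toMonoidHom.comp
            (IntermediateField.fixingSubgroupEquiv K).symm.toMonoidHom) ?_
        exact (MulEquiv.subgroupCongr hfix).injective.comp
          (IntermediateField.fixingSubgroupEquiv K).symm.injective
      exact descent_modular (F := K) (F' := F') (L := L) hPK
        (res (F := F) (F' := K) (L := L) ρ) h

end Pool.Agent.Results.MP_cab3fc_nt.ModularDescent
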