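import Pool.Agent.Helper93.WT.Main
import Pool.Agent.Helper93.WT.Defs3

/-!
# Multiplicities of a mod p Galois representation over the intermediate fields

Let `F' / F` be a finite Galois extension of number fields with group `G`, `D` a quaternion
division algebra over `F'` with a semilinear action of `G`, `O` a `G`-stable order, `H` a
`G`-stable level group mod `n` such that the stabilisers of the lattice pairs are central, `k` an
algebraically closed field of characteristic `p`, `ρ : Gal(L/F) → GL₂(k)`, and `E` the generalised
eigenspace of `ρ` in the forms mod `p` on `D` (for the primes outside `N`).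

* If `p ^ (b + 1)` does not divide `dim E` then there is an intermediate field `K` with
  `p ^ (b + 1)` not dividing `[K : F]` such that `ρ` restricted to `K` occurs in the forms on a
  twisted form of `D` over `K`.
* For every `p`-subgroup `P` of `G` there is a finite `P`-set `Y` with `E ≅ k[Y]` as
  representations of `P`, such that for all `K` with `Gal(F'/K) ≤ P` the number of fixed points of
  `Gal(F'/K)` on `Y` is the multiplicity of `ρ` over `K`; this multiplicity is nonzero if and only
  if `ρ` occurs over `K`.
-/

open scoped Pointwise NumberField TensorProduct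
open Pool.Agent.Helper93.WS Pool.Agent.Helper93.WT

universe u

namespace Pool.Agent.Results.MP_cab3fc_nt.MultiplicityTable

theorem result {p : ℕ} [Fact p.Prime] {k : Type u} [Field k] [CharP k p] [IsAlgClosed k]
    {F F' L D : Type u} [Field F] [NumberField F] [Field F'] [NumberField F']
    [Field L] [NumberField L] [Algebra F F'] [Algebra F L] [Algebra F' L] [IsScalarTower F F' L]
    [IsGalois F F'] [IsGalois F L]
    (ρ : (L ≃ₐ[F] L) →* Matrix.GeneralLinearGroup (Fin 2) k)
    [DivisionRing D] [Algebra F' D] [Algebra.IsCentral F' D] (hD : Module.finrank F' D = 4)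
    [MulSemiringAction (F' ≃ₐ[F] F') D] (O : Subring D) (n : ℕ) (H : Set D)
    (hdata : LevelData F F' O n H) :
    (∀ (K : IntermediateField F F') (B : Type u) [DivisionRing B] [Algebra K B]
      (y : AddSubgroup D × Set D) (γ : (F' ≃ₐ[F] F') → Dˣ) (ι : B →+* D),
      IsTwistedFormOver K O n H y γ ι → GoodForm K (OB ι y.1) n (HB ι y) ι) ∧
    ∃ N₀ : ℕ, N₀ ≠ 0 ∧ ∀ N : ℕ, N ≠ 0 → N₀ ∣ N → n ∣ N →
      SplitOutside F' O N → UnramifiedOutside ρ N →
      (∀ (K : IntermediateField F F') (B : Type u) [DivisionRing B] [Algebra K B]
        (y : AddSubgroup D × Set D) (γ : (F' ≃ₐ[F] F') → Dˣ) (ι : B →+* D),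
        IsTwistedFormOver K O n H y γ ι → SplitOutside K (OB ι y.1) N) ∧
      (∀ b : ℕ, ¬ p ^ (b + 1) ∣ Module.finrank k (eigenSpace F F' ρ O n H N) →
        ∃ K : IntermediateField F F', IsPGroup p K.fixingSubgroup ∧
          ¬ p ^ (b + 1) ∣ Module.finrank F K ∧ OccursOver ρ O n H N K) ∧
      (∀ K : IntermediateField F F', IsPGroup p K.fixingSubgroup →
        (multOver ρ O n H N K ≠ 0 ↔ OccursOver ρ O n H N K)) ∧
      (∀ P : Subgroup (F' ≃ₐ[F] F'), IsPGroup p P →
        ∃ (Y : Type) (_ : Finite Y) (_ : MulAction P Y),
          IsPermModule (P := P) (eigenSpace F F' ρ O n H N) Y ∧ HasMarks ρ O n H N P Y) := by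
  have hfd : FiniteDimensional F' D := Module.finite_of_finrank_pos (by rw [hD]; norm_num)
  exact table_main (p := p) ρ hdata.act hdata.order hdata.order_stable hdata.pos hdata.level
    hdata.level_stable hdata.central

end Pool.Agent.Results.MP_cab3fc_nt.MultiplicityTable
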